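import Mathlib

set_option maxHeartbeats 4000000
set_option linter.unusedSectionVars false

/-!
# MP_903317_co: the conjectured uniqueness of `G_k(p,q)` fails for `k = 11`

A regular weighted blow-up of a 12-vertex Vega-type graph is an 11-regular non-bipartite graph
with diameter 2 and girth 4 on `32 = 3 * 11 - 1` vertices that has twins, whereas `G_11(11,1)`
is twin-free.
-/

namespace Pool.Agent.Results.MP_903317_co.WeightedVega

open SimpleGraph

/-- Membership in the class `F(k,2)`: `k`-regular, not bipartite, diameter exactly 2, girth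
exactly 4. -/
def InF (k : ℕ) {V : Type} (G : SimpleGraph V) : Prop :=
  (∀ v : V, (G.neighborSet v).ncard = k) ∧ ¬ G.Colorable 2 ∧ G.ediam = 2 ∧ G.egirth = 4

/-- The graph `G_k(p,q)` on `ZMod ((3p-1)q)`: `i ~ j` iff `i - j ≡ 1 + 3n (mod 3p-1)` for some
`n ∈ {0, ..., p-1}`, where `i, j` are represented by their canonical representatives. -/
def Gk (p q : ℕ) : SimpleGraph (ZMod ((3 * p - 1) * q)) :=
  SimpleGraph.fromRel fun i j =>
    ∃ n : ℕ, n < p ∧ ((i.val : ℤ) - (j.val : ℤ)) ≡ 1 + 3 * (n : ℤ) [ZMOD ((3 * p - 1 : ℕ) : ℤ)]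

/-- Adjacency masks of the 12-vertex base graph. -/
def mask : Fin 12 → ℕ := ![300, 312, 593, 579, 1158, 3587, 3340, 2832, 195, 172, 112, 224]

/-- Adjacency in the 12-vertex base graph. -/
def badj (a b : Fin 12) : Bool := (mask a).testBit b.val

/-- The class map of the blow-up. -/
def cls : Fin 32 → Fin 12 :=
  ![0,1,1,1,2,2,2,3,4,4,4,5,5,5,5,6,6,6,6,7,7,7,8,8,8,9,9,9,10,10,11,11]

lemma badj_symm : ∀ a b : Fin 12, badj a b = badj b a := by decide

lemma badj_irrefl : ∀ a : Fin 12, badj a a = false := by decide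

lemma badj_triangle : ∀ a b c : Fin 12, badj a b = true → badj b c = true →
    badj a c = true → False := by decide +kernel

lemma badj_common : ∀ a b : Fin 12, badj a b = true ∨
    ∃ c, badj a c = true ∧ badj c b = true := by decide +kernel

lemma cls_surj : ∀ a : Fin 12, ∃ i : Fin 32, cls i = a := by decide +kernel

/-- The counterexample graph on 32 vertices. -/
def H : SimpleGraph (Fin 32) where
  Adj i j := badj (cls i) (cls j) = true
  symm := ⟨fun i j h => by rw [badj_symm]; exact h⟩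
  loopless := ⟨fun i h => by rw [badj_irrefl] at h; exact Bool.noConfusion h⟩

lemma H_adj (i j : Fin 32) : H.Adj i j ↔ badj (cls i) (cls j) = true := Iff.rfl

instance : DecidableRel H.Adj := fun i j => decEq (badj (cls i) (cls j)) true

lemma H_degree : ∀ i : Fin 32, (Finset.univ.filter fun j => badj (cls i) (cls j) = true).card = 11 := by
  decide +kernel

lemma H_ncard (i : Fin 32) : (H.neighborSet i).ncard = 11 := by
  have : H.neighborSet i = ↑(Finset.univ.filter fun j => badj (cls i) (cls j) = true) := by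
    ext j
    simp [H_adj]
  rw [this, Set.ncard_coe_finset]
  exact H_degree i

lemma H_not_colorable : ¬ H.Colorable 2 := by
  rintro ⟨C⟩
  -- the 5-cycle g1 g3 g5 g2 g4, i.e. base vertices 0 - 2 - 4 - 1 - 3 - 0
  have h1 : C 0 ≠ C 4 := C.valid (by decide : H.Adj 0 4)
  have h2 : C 4 ≠ C 8 := C.valid (by decide : H.Adj 4 8)
  have h3 : C 8 ≠ C 1 := C.valid (by decide : H.Adj 8 1)
  have h4 : C 1 ≠ C 7 := C.valid (by decide : H.Adj 1 7)
  have h5 : C 7 ≠ C 0 := C.valid (by decide : H.Adj 7 0)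
  generalize C 0 = a at *
  generalize C 4 = b at *
  generalize C 8 = c at *
  generalize C 1 = d at *
  generalize C 7 = e at *
  revert a b c d e
  decide

lemma H_triangle (i j k : Fin 32) (h1 : H.Adj i j) (h2 : H.Adj j k) (h3 : H.Adj i k) : False :=
  badj_triangle _ _ _ h1 h2 h3

lemma H_ediam : H.ediam = 2 := by
  apply le_antisymm
  · rw [ediam_le_iff]
    intro u v
    by_cases huv : u = v
    · subst huv
      simp
    rcases badj_common (cls u) (cls v) with h | ⟨c, hc1, hc2⟩
    · have hw : H.Adj u v := h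
      have := H.edist_le (Walk.cons hw Walk.nil)
      refine this.trans ?_
      simp
    · obtain ⟨w, rfl⟩ := cls_surj c
      have h1 : H.Adj u w := hc1
      have h2 : H.Adj w v := hc2
      have := H.edist_le (Walk.cons h1 (Walk.cons h2 Walk.nil))
      refine this.trans ?_
      simp
  · have h0 : H.ediam ≠ 0 := ediam_ne_zero
    have h1 : H.ediam ≠ 1 := by
      intro h
      rw [ediam_eq_one] at h
      have : H.Adj 1 2 := by rw [h]; simp
      revert this
      decide
    have h2 : 1 ≤ H.ediam := Order.one_le_iff_ne_zero.mpr h0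
    have h3 : 1 < H.ediam := lt_of_le_of_ne h2 (Ne.symm h1)
    have := Order.add_one_le_of_lt h3
    simpa [one_add_one_eq_two] using this

lemma H_egirth : H.egirth = 4 := by
  apply le_antisymm
  · -- 4-cycle 0 - 4 - ? : base 0-2-... use twins 1,2 (class 1) and neighbours 7 (class 3), 8 (class 4)
    have h1 : H.Adj 1 7 := by decide
    have h2 : H.Adj 7 2 := by decide
    have h3 : H.Adj 2 8 := by decide
    have h4 : H.Adj 8 1 := by decide
    have hc : (Walk.cons h1 (Walk.cons h2 (Walk.cons h3 (Walk.cons h4 Walk.nil)))).IsCycle := by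
      rw [Walk.cons_isCycle_iff]
      refine ⟨?_, ?_⟩
      · simp [Walk.cons_isPath_iff]
      · simp
    have := egirth_le_length hc
    simpa using this
  · rw [le_egirth]
    intro a w hw
    have h3 := hw.three_le_length
    by_contra hlt
    have hlen : w.length = 3 := by
      by_contra hne
      apply hlt
      have : 4 ≤ w.length := by omega
      exact_mod_cast this
    have : ∃ s : Finset (Fin 32), H.IsNClique 3 s :=
      (is3Clique_iff_exists_cycle_length_three).mpr ⟨a, w, hw, hlen⟩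
    obtain ⟨s, hs⟩ := this
    rw [is3Clique_iff] at hs
    obtain ⟨x, y, z, hxy, hxz, hyz, -⟩ := hs
    exact H_triangle x y z hxy hyz hxz

lemma H_inF : InF 11 H := ⟨H_ncard, H_not_colorable, H_ediam, H_egirth⟩

/-- `G_11(11,1)` is twin-free. -/
lemma Gk_adj_iff (i j : ZMod ((3 * 11 - 1) * 1)) : (Gk 11 1).Adj i j ↔
    i ≠ j ∧ ((∃ n : ℕ, n < 11 ∧ ((i.val : ℤ) - (j.val : ℤ)) ≡ 1 + 3 * (n : ℤ) [ZMOD 32]) ∨
      (∃ n : ℕ, n < 11 ∧ ((j.val : ℤ) - (i.val : ℤ)) ≡ 1 + 3 * (n : ℤ) [ZMOD 32])) := by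
  simp [Gk, SimpleGraph.fromRel_adj]

/-- A computable version of adjacency in `G_11(11,1)`. -/
def gadj (i j : Fin 32) : Bool :=
  decide (i ≠ j) && (decide (((i.val + 32 - j.val) % 32) % 3 = 1))

lemma gadj_iff (i j : Fin 32) : gadj i j = true ↔
    i ≠ j ∧ ((∃ n : ℕ, n < 11 ∧ ((i.val : ℤ) - (j.val : ℤ)) ≡ 1 + 3 * (n : ℤ) [ZMOD 32]) ∨
      (∃ n : ℕ, n < 11 ∧ ((j.val : ℤ) - (i.val : ℤ)) ≡ 1 + 3 * (n : ℤ) [ZMOD 32])) := by
  have hi := i.isLt
  have hj := j.isLt
  simp only [gadj, Bool.and_eq_true, decide_eq_true_eq]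
  refine and_congr_right fun hne => ?_
  constructor
  · intro h
    left
    refine ⟨((i.val + 32 - j.val) % 32) / 3, by omega, ?_⟩
    unfold Int.ModEq
    omega
  · rintro (⟨n, hn, h⟩ | ⟨n, hn, h⟩)
    · unfold Int.ModEq at h
      have e1 : (1 + 3 * (n : ℤ)) % 32 = 1 + 3 * (n : ℤ) := Int.emod_eq_of_lt (by omega) (by omega)
      rw [e1] at h
      rcases Nat.lt_or_ge i.val j.val with hij | hij
      · have : (i.val + 32 - j.val) % 32 = i.val + 32 - j.val := Nat.mod_eq_of_lt (by omega)
        omega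
      · have : (i.val + 32 - j.val) % 32 = i.val - j.val := by omega
        omega
    · unfold Int.ModEq at h
      have e1 : (1 + 3 * (n : ℤ)) % 32 = 1 + 3 * (n : ℤ) := Int.emod_eq_of_lt (by omega) (by omega)
      rw [e1] at h
      rcases Nat.lt_or_ge i.val j.val with hij | hij
      · have : (i.val + 32 - j.val) % 32 = i.val + 32 - j.val := Nat.mod_eq_of_lt (by omega)
        omega
      · have : (i.val + 32 - j.val) % 32 = i.val - j.val := by omega
        omega

lemma gadj_twinfree : ∀ i j : Fin 32, i ≠ j → ∃ k : Fin 32, gadj i k ≠ gadj j k := by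
  decide +kernel

lemma Gk_twinfree (i j : ZMod ((3 * 11 - 1) * 1)) (hij : i ≠ j) :
    ∃ k, ¬ ((Gk 11 1).Adj i k ↔ (Gk 11 1).Adj j k) := by
  obtain ⟨k, hk⟩ := gadj_twinfree i j hij
  refine ⟨k, fun h => hk ?_⟩
  have e : ∀ a b : ZMod ((3 * 11 - 1) * 1), gadj a b = true ↔ (Gk 11 1).Adj a b :=
    fun a b => (gadj_iff a b).trans (Gk_adj_iff a b).symm
  exact Bool.eq_iff_iff.mpr (((e i k).trans h).trans (e j k).symm)

lemma not_iso : IsEmpty (H ≃g Gk 11 1) := by
  constructor
  intro f
  have hne : f 1 ≠ f 2 := by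
    intro h
    have := f.injective h
    revert this
    decide
  obtain ⟨k, hk⟩ := Gk_twinfree (f 1) (f 2) hne
  apply hk
  have h1 : (Gk 11 1).Adj (f 1) k ↔ H.Adj 1 (f.symm k) := by
    conv_lhs => rw [← f.apply_symm_apply k]
    exact f.map_adj_iff
  have h2 : (Gk 11 1).Adj (f 2) k ↔ H.Adj 2 (f.symm k) := by
    conv_lhs => rw [← f.apply_symm_apply k]
    exact f.map_adj_iff
  rw [h1, h2, H_adj, H_adj]
  have : cls 1 = cls 2 := by decide
  rw [this]

/-- The assertion of Q1 for a given `k` (with `p = k.minFac` the least prime divisor of `k` and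
`q = k / p`): the minimum number of vertices of a graph in `F(k,2)` is `3k - k/p`, and every graph
in `F(k,2)` with exactly that many vertices is isomorphic to `G_k(p,q)`. -/
def Conj (k : ℕ) : Prop :=
  IsLeast {n : ℕ | ∃ (V : Type) (_ : Fintype V) (G : SimpleGraph V),
      InF k G ∧ Fintype.card V = n} (3 * k - k / k.minFac) ∧
    ∀ (V : Type) [Fintype V] (G : SimpleGraph V), InF k G →
      Fintype.card V = 3 * k - k / k.minFac → Nonempty (G ≃g Gk k.minFac (k / k.minFac))

theorem result :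
    (∃ G : SimpleGraph (Fin 32), InF 11 G ∧ IsEmpty (G ≃g Gk 11 1)) ∧
    ¬ Conj 11 ∧
    ¬ ∀ k : ℕ, 2 ≤ k → 5 ≤ k.minFac → Conj k := by
  have hmf : Nat.minFac 11 = 11 := Nat.Prime.minFac_eq (by norm_num)
  have key : ¬ Conj 11 := by
    rintro ⟨-, h⟩
    have := h (Fin 32) H H_inF (by rw [hmf]; simp)
    rw [hmf] at this
    obtain ⟨f⟩ := this
    exact not_iso.false f
  refine ⟨⟨H, H_inF, not_iso⟩, key, fun h => ?_⟩
  exact key (h 11 (by norm_num) (by rw [hmf]; norm_num))

end Pool.Agent.Results.MP_903317_co.WeightedVega
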